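import Pool.Agent.R665.MGR.Rep
import Pool.Agent.R569.CS.Core

set_option autoImplicit false

/-! The congruence subgroup of level `p` of the mapping class group. -/

namespace Pool.Agent.N66.CQ

open Pool.Agent.H29R2.MG Pool.Agent.TH35.MG Pool.Agent.R352.MG Pool.Agent.R665.MGR Module

/-- the elements of the surface group with homology class divisible by `p` -/
def gam (g p : ℕ) : Subgroup (SurfaceGroup g) where
  carrier := {x | ∀ j, (p : ℤ) ∣ homologyClass x j}
  one_mem' := by
    intro j
    rw [hc_one]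
    simp
  mul_mem' := by
    intro x y hx hy j
    rw [hc_mul]
    exact dvd_add (hx j) (hy j)
  inv_mem' := by
    intro x hx j
    rw [hc_inv]
    exact (dvd_neg.2 (hx j))

theorem mem_gam {g p : ℕ} {x : SurfaceGroup g} :
    x ∈ gam g p ↔ ∀ j, (p : ℤ) ∣ homologyClass x j := Iff.rfl

/-- the homology class modulo `p` -/
def modP (g p : ℕ) : SurfaceGroup g →* Multiplicative (Fin g ⊕ Fin g → ZMod p) where
  toFun x := Multiplicative.ofAdd (fun j => ((homologyClass x j : ℤ) : ZMod p))
  map_one' := by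
    rw [hc_one]
    simp
    rfl
  map_mul' x y := by
    rw [hc_mul]
    apply Multiplicative.toAdd.injective
    funext j
    simp

theorem gam_eq (g p : ℕ) : gam g p = (modP g p).ker := by
  ext x
  rw [MonoidHom.mem_ker]
  constructor
  · intro h
    apply Multiplicative.toAdd.injective
    funext j
    have := (ZMod.intCast_zmod_eq_zero_iff_dvd (homologyClass x j) p).2 (h j)
    simpa [modP] using this
  · intro h j
    have h1 := congrArg Multiplicative.toAdd h
    have h2 := congrFun h1 j
    have h3 : ((homologyClass x j : ℤ) : ZMod p) = 0 := by simpa [modP] using h2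
    exact (ZMod.intCast_zmod_eq_zero_iff_dvd (homologyClass x j) p).1 h3

/-- homomorphisms from the surface group to `ℤ^{2g}` are determined by the homology class -/
theorem linear {g : ℕ} (ψ : SurfaceGroup g →* Multiplicative (Fin g ⊕ Fin g → ℤ))
    (x : SurfaceGroup g) :
    Multiplicative.toAdd (ψ x) = ∑ j, homologyClass x j • Multiplicative.toAdd (ψ (gen j)) := by
  let L : SurfaceGroup g →* Multiplicative (Fin g ⊕ Fin g → ℤ) :=
    { toFun := fun x => Multiplicative.ofAdd
        (∑ j, homologyClass x j • Multiplicative.toAdd (ψ (gen j)))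
      map_one' := by
        rw [hc_one]
        simp
      map_mul' := by
        intro x y
        rw [hc_mul, ← ofAdd_add, ← Finset.sum_add_distrib]
        congr 1
        refine Finset.sum_congr rfl fun j _ => ?_
        rw [Pi.add_apply, add_smul] }
  have hL : ψ = L := by
    apply surface_ext
    intro i
    have hc : homologyClass (gen i : SurfaceGroup g) = Pi.single i 1 := by
      unfold homologyClass homologyHom gen
      rw [outHom_mk]
      simp [freeHom]
    show ψ (gen i) = Multiplicative.ofAdd _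
    rw [hc]
    rw [Finset.sum_eq_single i]
    · simp
    · intro j _ hj
      rw [Pi.single_eq_of_ne hj, zero_smul]
    · intro h
      exact absurd (Finset.mem_univ i) h
  have h := DFunLike.congr_fun hL x
  rw [h]
  rfl

theorem gam_char (g p : ℕ) : (gam g p).Characteristic := by
  rw [Subgroup.characteristic_iff_le_comap]
  intro φ x hx
  rw [Subgroup.mem_comap]
  intro j
  have h := linear ((homologyHom g).comp φ.toMonoidHom) x
  have h1 : homologyClass (φ x) = ∑ i, homologyClass x i •
      Multiplicative.toAdd (((homologyHom g).comp φ.toMonoidHom) (gen i)) := h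
  show (p : ℤ) ∣ homologyClass (φ x) j
  rw [h1, Finset.sum_apply]
  refine Finset.dvd_sum fun i _ => ?_
  rw [Pi.smul_apply, smul_eq_mul]
  exact (hx i).mul_right _

theorem gam_fin (g p : ℕ) (hp : p ≠ 0) : (gam g p).FiniteIndex := by
  have : NeZero p := ⟨hp⟩
  rw [gam_eq]
  infer_instance

/-- the congruence subgroup of level `p`: the mapping classes acting trivially on `H_1(S; ℤ/p)` -/
def Level (g p : ℕ) : Subgroup (Mod g) where
  carrier := {x | ∀ φ : orientedAut g, classOf g φ = x → ∀ (y : SurfaceGroup g) (j : Fin g ⊕ Fin g),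
    (p : ℤ) ∣ homologyClass (φ.1 y) j - homologyClass y j}
  one_mem' := by
    intro φ hφ y j
    have h1 : classOf g φ = classOf g 1 := hφ
    rw [hc_class h1]
    show (p : ℤ) ∣ homologyClass y j - homologyClass y j
    rw [sub_self]
    exact dvd_zero _
  mul_mem' := by
    intro a b ha hb φ hφ y j
    obtain ⟨φ1, rfl⟩ : ∃ φ : orientedAut g, classOf g φ = a := QuotientGroup.mk_surjective a
    obtain ⟨φ2, rfl⟩ : ∃ φ : orientedAut g, classOf g φ = b := QuotientGroup.mk_surjective b
    have h1 : classOf g φ = classOf g (φ1 * φ2) := hφ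
    rw [hc_class h1]
    have h3 := ha φ1 rfl (φ2.1 y) j
    have h4 := hb φ2 rfl y j
    have h5 := dvd_add h3 h4
    rwa [sub_add_sub_cancel] at h5
  inv_mem' := by
    intro a ha φ hφ y j
    have h1 : classOf g φ⁻¹ = a := by rw [classOf_inv, hφ, inv_inv]
    have h2 := ha φ⁻¹ h1 (φ.1 y) j
    have h3 : (φ⁻¹).1 (φ.1 y) = y := by
      rw [InvMemClass.coe_inv, MulAut.inv_apply_self]
    rw [h3] at h2
    rwa [dvd_sub_comm]

theorem mem_level {g p : ℕ} {x : Mod g} : x ∈ Level g p ↔
    ∀ φ : orientedAut g, classOf g φ = x → ∀ (y : SurfaceGroup g) (j : Fin g ⊕ Fin g),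
      (p : ℤ) ∣ homologyClass (φ.1 y) j - homologyClass y j := Iff.rfl

theorem level_of_rep {g p : ℕ} {φ : orientedAut g}
    (h : ∀ (y : SurfaceGroup g) (j : Fin g ⊕ Fin g),
      (p : ℤ) ∣ homologyClass (φ.1 y) j - homologyClass y j) : classOf g φ ∈ Level g p := by
  intro ψ hψ y j
  rw [hc_class hψ]
  exact h y j

theorem level_normal (g p : ℕ) : (Level g p).Normal := by
  constructor
  intro a ha b φ hφ y j
  obtain ⟨φ1, rfl⟩ : ∃ φ : orientedAut g, classOf g φ = a := QuotientGroup.mk_surjective a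
  obtain ⟨φ2, rfl⟩ : ∃ φ : orientedAut g, classOf g φ = b := QuotientGroup.mk_surjective b
  have h1 : classOf g φ = classOf g (φ2 * φ1 * φ2⁻¹) := hφ
  rw [hc_class h1]
  have hK := gam_char g p
  have h2 : φ1.1 ((φ2⁻¹).1 y) * ((φ2⁻¹).1 y)⁻¹ ∈ gam g p := by
    intro i
    rw [hc_mul, hc_inv]
    have := ha φ1 rfl ((φ2⁻¹).1 y) i
    rwa [Pi.add_apply, Pi.neg_apply, ← sub_eq_add_neg]
  have h3 := Subgroup.characteristic_iff_le_comap.1 hK φ2.1 h2
  rw [Subgroup.mem_comap] at h3
  have h4 : φ2.1 (φ1.1 ((φ2⁻¹).1 y) * ((φ2⁻¹).1 y)⁻¹) =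
      (φ2 * φ1 * φ2⁻¹ : orientedAut g).1 y * y⁻¹ := by
    rw [map_mul, map_inv]
    have : φ2.1 ((φ2⁻¹).1 y) = y := by rw [InvMemClass.coe_inv, MulAut.apply_inv_self]
    rw [this]
    rfl
  have h5 : (φ2 * φ1 * φ2⁻¹ : orientedAut g).1 y * y⁻¹ ∈ gam g p := by
    rw [← h4]
    exact h3
  have h6 := h5 j
  rw [hc_mul, hc_inv, Pi.add_apply, Pi.neg_apply, ← sub_eq_add_neg] at h6
  exact h6

theorem level_fin (g p : ℕ) (hp : p ≠ 0) : (Level g p).FiniteIndex := by
  have h1 := gam_char g p
  have h2 := gam_fin g p hp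
  have h3 : (Pool.Agent.R569.CS.act (orientedAut g).subtype (gam g p)).FiniteIndex :=
    Pool.Agent.R569.CS.act_finiteIndex _ _
  have h4 : Pool.Agent.R569.CS.act (orientedAut g).subtype (gam g p) ≤
      (Level g p).comap (toMod g) := by
    intro φ hφ
    rw [Subgroup.mem_comap]
    refine level_of_rep (φ := φ) ?_
    intro y j
    have h5 := hφ y j
    rw [hc_mul, hc_inv, Pi.add_apply, Pi.neg_apply, ← sub_eq_add_neg] at h5
    exact h5
  have h5 : ((Level g p).comap (toMod g)).FiniteIndex := Subgroup.finiteIndex_of_le h4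
  constructor
  rw [← Subgroup.index_comap_of_surjective (Level g p) (f := toMod g)
    (QuotientGroup.mk'_surjective _)]
  exact h5.index_ne_zero

/-- `φ` acts on `π_1(S) / Γ` as an inner automorphism -/
def InnerMod {g : ℕ} (Γ : Subgroup (SurfaceGroup g)) (φ : MulAut (SurfaceGroup g)) : Prop :=
  ∃ y : SurfaceGroup g, ∀ x : SurfaceGroup g, φ x * (y * x * y⁻¹)⁻¹ ∈ Γ

theorem level_of_inner {g p : ℕ} {φ : orientedAut g} (h : InnerMod (gam g p) φ.1) :
    classOf g φ ∈ Level g p := by
  refine level_of_rep ?_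
  obtain ⟨y, hy⟩ := h
  intro x j
  have h1 := hy x j
  rw [hc_mul, hc_inv, hc_mul, hc_mul, hc_inv] at h1
  have h2 : (homologyClass (φ.1 x) + -(homologyClass y + homologyClass x + -homologyClass y)) j =
      homologyClass (φ.1 x) j - homologyClass x j := by
    simp only [Pi.add_apply, Pi.neg_apply]
    ring
  rwa [h2] at h1

end Pool.Agent.N66.CQ
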