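import Pool.Agent.N66.CQ.Gam
import Pool.Agent.Helper111.EN.Basic

set_option autoImplicit false

/-! Representations of `Mod_g` of dimension less than `binom (g - 5) 2` in characteristic `p`:
the congruence subgroup of level `p` acts as a `p`-group of class at most two, and the image is
finite. -/

namespace Pool.Agent.N66.CQ

open Pool.Agent.H29R2.MG Pool.Agent.TH35.MG Pool.Agent.R352.MG Pool.Agent.R665.MGR Module
open scoped commutatorElement

universe u

variable {g d p : ℕ} {K : Type u} [Field K]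

theorem comb_congr [CharP K p] (v : Fin g ⊕ Fin g → (Fin d → K)) {m n : Fin g ⊕ Fin g → ℤ}
    (h : ∀ j, (p : ℤ) ∣ m j - n j) : comb v m = comb v n := by
  unfold comb
  refine Finset.sum_congr rfl fun i _ => ?_
  have h1 : ((m i : ℤ) : K) = (n i : ℤ) := by
    rw [← sub_eq_zero, ← Int.cast_sub]
    exact (CharP.intCast_eq_zero_iff K p _).2 (h i)
  rw [h1]

/-- the elements of the Humphries group acting trivially on `H_1(S; ℤ/p)` -/
def HL (g p : ℕ) : Subgroup (Mod g) := Humphries g ⊓ Level g p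

theorem lev_Vim [CharP K p] (hd : d < (g - 5).choose 2)
    (f : Mod g →* Matrix.GeneralLinearGroup (Fin d) K)
    {T : Mod g} (hT : IsTwistAt g 1 T) (y : Mod g) (hy : y ∈ HL g p) :
    ∀ v ∈ Vim (2 * g) (fun j => rho f (tt g j) - 1) (rho f T - 1),
      (rho f y - 1) v ∈ Vinv (2 * g) (fun j => rho f (tt g j) - 1) (rho f T - 1) := by
  have hg := seven_le hd
  have hfix := fix_Vinv hg f hT
  have hinv : Invariant f (Vinv (2 * g) (fun j => rho f (tt g j) - 1) (rho f T - 1)) := by
    intro x hx v hv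
    rw [← rho_apply, hfix x hx v hv]
    exact hv
  refine F_Vim (rel hd f hT) (by omega) (rho f y - 1) ?_ ?_
  · intro v hv
    exact sub_eq_zero.2 (hfix y hy.1 v hv)
  · intro u hu j hj
    have r := rrel (rel hd f hT) (by omega) hu
    obtain ⟨φ, hφ, h1⟩ := equiv_all hd f hT hinv r y hy.1
    set w := ww (fun j => rho f (tt g j) - 1) u with hw
    have hub : ∀ k, (rho f y - 1) (ub g w k) ∈
        Vinv (2 * g) (fun j => rho f (tt g j) - 1) (rho f T - 1) := by
      intro k
      have h2 := h1 (gen k)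
      have h3 : comb (ub g w) (homologyClass (φ.1 (gen k))) =
          comb (ub g w) (homologyClass (gen k)) := comb_congr _ (fun j => hy.2 φ hφ (gen k) j)
      rw [h3, comb_gen] at h2
      exact h2
    rcases Nat.even_or_odd' j with ⟨i, rfl | rfl⟩
    · have h := (gen_even r (⟨i, by omega⟩ : Fin g)).val
      rw [show w (2 * i) = _ from h, map_sum]
      refine Submodule.sum_mem _ fun k _ => ?_
      rw [map_smul]
      exact Submodule.smul_mem _ _ (hub k)
    · exact hub (Sum.inr ⟨i, by omega⟩)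

theorem triple [CharP K p] (hd : d < (g - 5).choose 2)
    (f : Mod g →* Matrix.GeneralLinearGroup (Fin d) K)
    (x : Mod g) (hx : x ∈ Humphries g) (y : Mod g) (hy : y ∈ HL g p) (z : Mod g)
    (hz : z ∈ Humphries g) :
    ((f x : Matrix (Fin d) (Fin d) K) - 1) * ((f y : Matrix (Fin d) (Fin d) K) - 1) *
      ((f z : Matrix (Fin d) (Fin d) K) - 1) = 0 := by
  have hg := seven_le hd
  obtain ⟨T, hT⟩ := twist_exists_at (g := g) (m := 1) (by omega) (by omega)
  apply (Matrix.toLinAlgEquiv' (R := K) (n := Fin d)).injective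
  rw [map_zero, map_mul, map_mul, ← rho_sub, ← rho_sub, ← rho_sub]
  apply LinearMap.ext
  intro v
  rw [LinearMap.zero_apply, Module.End.mul_apply, Module.End.mul_apply]
  have h1 := mem_Vim hg f hT z hz v
  have h2 := lev_Vim hd f hT y hy _ h1
  exact sub_eq_zero.2 (fix_Vinv hg f hT x hx _ h2)

/-- triple commutators are killed -/
theorem comm3 [CharP K p] (hd : d < (g - 5).choose 2)
    (f : Mod g →* Matrix.GeneralLinearGroup (Fin d) K)
    (x y z : Mod g) (hx : x ∈ HL g p) (hy : y ∈ HL g p) (hz : z ∈ HL g p) :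
    f ⁅x, ⁅y, z⁆⁆ = 1 := by
  have key : ∀ a b c : Mod g, a ∈ HL g p → b ∈ HL g p → c ∈ HL g p →
      ((f a : Matrix (Fin d) (Fin d) K) - 1) * ((f b : Matrix (Fin d) (Fin d) K) - 1) *
      ((f c : Matrix (Fin d) (Fin d) K) - 1) = 0 :=
    fun a b c ha hb hc => triple hd f a ha.1 b hb c hc.1
  have hc : f ⁅y, z⁆ = f (y * z) * f (z * y)⁻¹ := by
    rw [← map_mul]
    congr 1
    rw [commutatorElement_def]
    group
  have hw : (z * y)⁻¹ ∈ HL g p := inv_mem (mul_mem hz hy)
  have hX : ∀ (A B C D : Matrix (Fin d) (Fin d) K), (A - 1) * (B - 1) * (D - 1) = 0 →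
      (B - 1) * (A - 1) * (D - 1) = 0 →
      ((A - 1) * (B - 1) - (B - 1) * (A - 1)) * (D - 1) = 0 := by
    intro A B _ D h1 h2
    rw [sub_mul ((A - 1) * (B - 1)), h1, h2, sub_zero]
  have hY : ∀ (A B D : Matrix (Fin d) (Fin d) K), (D - 1) * (A - 1) * (B - 1) = 0 →
      (D - 1) * (B - 1) * (A - 1) = 0 →
      (D - 1) * ((A - 1) * (B - 1) - (B - 1) * (A - 1)) = 0 := by
    intro A B D h1 h2
    rw [mul_sub (D - 1), ← mul_assoc, ← mul_assoc, h1, h2, sub_zero]
  -- the commutator minus one
  have e1 : (f ⁅y, z⁆ : Matrix (Fin d) (Fin d) K) - 1 =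
      ((f y : Matrix (Fin d) (Fin d) K) - 1) * ((f z : Matrix (Fin d) (Fin d) K) - 1) -
      ((f z : Matrix (Fin d) (Fin d) K) - 1) * ((f y : Matrix (Fin d) (Fin d) K) - 1) := by
    have h1 : (f ⁅y, z⁆ : Matrix (Fin d) (Fin d) K) - 1 =
        ((f (y * z) : Matrix (Fin d) (Fin d) K) - f (z * y)) * f (z * y)⁻¹ := by
      rw [hc, Units.val_mul, sub_mul]
      congr 1
      rw [← Units.val_mul, ← map_mul, mul_inv_cancel, map_one, Units.val_one]
    have h2 : (f (y * z) : Matrix (Fin d) (Fin d) K) - f (z * y) =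
        ((f y : Matrix (Fin d) (Fin d) K) - 1) * ((f z : Matrix (Fin d) (Fin d) K) - 1) -
        ((f z : Matrix (Fin d) (Fin d) K) - 1) * ((f y : Matrix (Fin d) (Fin d) K) - 1) := by
      rw [map_mul, map_mul, Units.val_mul, Units.val_mul]
      noncomm_ring
    have h3 : (f (z * y)⁻¹ : Matrix (Fin d) (Fin d) K) =
        1 + ((f (z * y)⁻¹ : Matrix (Fin d) (Fin d) K) - 1) := by abel
    have h4 := hX (f y : Matrix (Fin d) (Fin d) K) (f z) 0 (f (z * y)⁻¹) (key y z _ hy hz hw)
      (key z y _ hz hy hw)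
    rw [h1, h2, h3, mul_add, mul_one, h4, add_zero]
  have e2 : (f x : Matrix (Fin d) (Fin d) K) * f ⁅y, z⁆ = f ⁅y, z⁆ * f x := by
    have h1 : ((f x : Matrix (Fin d) (Fin d) K) - 1) * ((f ⁅y, z⁆ : Matrix (Fin d) (Fin d) K) - 1)
        = 0 := by
      rw [e1]
      exact hY _ _ _ (key x y z hx hy hz) (key x z y hx hz hy)
    have h2 : ((f ⁅y, z⁆ : Matrix (Fin d) (Fin d) K) - 1) * ((f x : Matrix (Fin d) (Fin d) K) - 1)
        = 0 := by
      rw [e1]
      exact hX _ _ 0 _ (key y z x hy hz hx) (key z y x hz hy hx)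
    have h3 : (f x : Matrix (Fin d) (Fin d) K) * f ⁅y, z⁆ - f ⁅y, z⁆ * f x =
        ((f x : Matrix (Fin d) (Fin d) K) - 1) * ((f ⁅y, z⁆ : Matrix (Fin d) (Fin d) K) - 1) -
        ((f ⁅y, z⁆ : Matrix (Fin d) (Fin d) K) - 1) * ((f x : Matrix (Fin d) (Fin d) K) - 1) := by
      generalize (f ⁅y, z⁆ : Matrix (Fin d) (Fin d) K) = a
      generalize (f x : Matrix (Fin d) (Fin d) K) = b
      noncomm_ring
    rw [h1, h2, sub_zero] at h3
    exact sub_eq_zero.1 h3
  have e3 : f x * f ⁅y, z⁆ = f ⁅y, z⁆ * f x := Units.ext (by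
    rw [Units.val_mul, Units.val_mul]; exact e2)
  rw [map_commutatorElement]
  exact commutatorElement_eq_one_iff_mul_comm.2 e3

/-- `(M - 1)^q = M^q - 1` if `q` is a power of the characteristic -/
theorem pow_char [Fact p.Prime] [CharP K p] (M : Matrix (Fin d) (Fin d) K) (r : ℕ) :
    (M - 1) ^ (p ^ r) = M ^ (p ^ r) - 1 := by
  have h : ((Polynomial.X : Polynomial K) - 1) ^ (p ^ r) = Polynomial.X ^ (p ^ r) - 1 := by
    rw [sub_pow_char_pow, one_pow]
  have h2 := congrArg (Polynomial.aeval M) h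
  simpa using h2

theorem lev_pow [Fact p.Prime] [CharP K p] (hd : d < (g - 5).choose 2)
    (f : Mod g →* Matrix.GeneralLinearGroup (Fin d) K) {y : Mod g} (hy : y ∈ HL g p) {r : ℕ}
    (hr : 3 ≤ p ^ r) : f y ^ (p ^ r) = 1 := by
  have h1 := triple hd f y hy.1 y hy y hy.1
  have h2 : ((f y : Matrix (Fin d) (Fin d) K) - 1) ^ (p ^ r) = 0 := by
    rw [← Nat.sub_add_cancel hr, pow_add]
    have : ((f y : Matrix (Fin d) (Fin d) K) - 1) ^ 3 = 0 := by
      rw [pow_succ, pow_two]
      exact h1
    rw [this, mul_zero]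
  rw [pow_char, sub_eq_zero] at h2
  apply Units.ext
  rw [Units.val_pow_eq_pow_val, h2]
  rfl

theorem three_le [hp : Fact p.Prime] : 3 ≤ p ^ 2 := by
  have := hp.out.two_le
  nlinarith

theorem hum_fg (hg : 7 ≤ g) : (Humphries g).FG := by
  classical
  rw [Subgroup.fg_iff]
  refine ⟨_, rfl, Set.Finite.union ?_ ?_⟩
  · have : {t | ∃ j : Fin (2 * g), t = chainTwist g j} = Set.range (fun j : Fin (2 * g) =>
        chainTwist g j) := by
      ext t
      constructor
      · rintro ⟨j, rfl⟩; exact ⟨j, rfl⟩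
      · rintro ⟨j, rfl⟩; exact ⟨j, rfl⟩
    rw [this]
    exact Set.finite_range _
  · obtain ⟨T, hT⟩ := twist_exists_at (g := g) (m := 1) (by omega) (by omega)
    refine (Set.finite_singleton T).subset ?_
    intro x hx
    exact twist_unique hg hT hx

/-- the image of the subgroup of level `p` is finite -/
theorem lev_finite [Fact p.Prime] [CharP K p] (hd : d < (g - 5).choose 2)
    (f : Mod g →* Matrix.GeneralLinearGroup (Fin d) K) : Finite ((HL g p).map f) := by
  have hg := seven_le hd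
  have hp : p ≠ 0 := (Fact.out : p.Prime).ne_zero
  have h1 := level_fin g p hp
  have hfg : Group.FG (Humphries g) := (Group.fg_iff_subgroup_fg _).2 (hum_fg hg)
  have h2 : ((Level g p).subgroupOf (Humphries g)).FiniteIndex := inferInstance
  have h3 : Group.FG ((Level g p).subgroupOf (Humphries g)) := Subgroup.fg_of_index_ne_zero _
  let F : Humphries g →* Matrix.GeneralLinearGroup (Fin d) K := f.comp (Humphries g).subtype
  have h4 : ((Level g p).subgroupOf (Humphries g)).map F = (HL g p).map f := by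
    ext x
    constructor
    · rintro ⟨⟨y, hy⟩, hy2, rfl⟩
      exact ⟨y, ⟨hy, hy2⟩, rfl⟩
    · rintro ⟨y, ⟨hy, hy2⟩, rfl⟩
      exact ⟨⟨y, hy⟩, hy2, rfl⟩
  have h5 : Group.FG ((HL g p).map f) := by
    rw [← h4]
    exact Group.fg_of_surjective (MonoidHom.subgroupMap_surjective F _)
  have h6 : ∀ y z : (HL g p).map f, ⁅y, z⁆ ∈ Subgroup.center ((HL g p).map f) := by
    rintro ⟨_, y, hy, rfl⟩ ⟨_, z, hz, rfl⟩
    rw [Subgroup.mem_center_iff]
    rintro ⟨_, x, hx, rfl⟩
    apply Subtype.ext
    have h7 := comm3 hd f x y z hx hy hz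
    rw [map_commutatorElement, map_commutatorElement, commutatorElement_eq_one_iff_mul_comm] at h7
    exact h7
  have h7 : Group.IsNilpotent (((HL g p).map f) ⧸ Subgroup.center ((HL g p).map f)) := by
    let Q := ((HL g p).map f) ⧸ Subgroup.center ((HL g p).map f)
    let inst : CommGroup Q :=
      { (inferInstance : Group Q) with
        mul_comm := by
          intro a b
          induction a using QuotientGroup.induction_on with
          | H y =>
            induction b using QuotientGroup.induction_on with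
            | H z =>
              have h8 := (QuotientGroup.eq_one_iff _).2 (h6 y z)
              have h9 : ⁅(QuotientGroup.mk' (Subgroup.center ((HL g p).map f)) y),
                  (QuotientGroup.mk' (Subgroup.center ((HL g p).map f)) z)⁆ = 1 := by
                rw [← map_commutatorElement]
                exact h8
              exact commutatorElement_eq_one_iff_mul_comm.1 h9 }
    exact (CommGroup.isNilpotent : @Group.IsNilpotent Q inst.toGroup)
  have h8 : Group.IsNilpotent ((HL g p).map f) := Group.of_quotient_center_nilpotent h7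
  refine Pool.Agent.Helper111.EN.finite_of_fg_nilpotent _ ?_
  rintro ⟨_, y, hy, rfl⟩
  refine isOfFinOrder_iff_pow_eq_one.2 ⟨p ^ 2, pow_pos (Fact.out : p.Prime).pos 2, ?_⟩
  apply Subtype.ext
  exact lev_pow hd f hy three_le

/-- the image of the Humphries group is finite -/
theorem image_finite [Fact p.Prime] [CharP K p] (hd : d < (g - 5).choose 2)
    (f : Mod g →* Matrix.GeneralLinearGroup (Fin d) K) : Finite ((Humphries g).map f) := by
  have hp : p ≠ 0 := (Fact.out : p.Prime).ne_zero
  have h0 := lev_finite (p := p) hd f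
  have h1 := level_fin g p hp
  have h2 : ((Level g p).subgroupOf (Humphries g)).FiniteIndex := inferInstance
  let F : Humphries g →* Matrix.GeneralLinearGroup (Fin d) K := f.comp (Humphries g).subtype
  have h3 : F.range = (Humphries g).map f := by
    ext x
    constructor
    · rintro ⟨⟨y, hy⟩, rfl⟩
      exact ⟨y, hy, rfl⟩
    · rintro ⟨y, hy, rfl⟩
      exact ⟨⟨y, hy⟩, rfl⟩
  have h4 : Finite F.range := by
    let L := (Level g p).subgroupOf (Humphries g)
    have hq : Finite (Humphries g ⧸ L) := Subgroup.finite_quotient_of_finiteIndex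
    let m : (Humphries g ⧸ L) × ((HL g p).map f) → Matrix.GeneralLinearGroup (Fin d) K :=
      fun x => F (Quotient.out x.1) * x.2.1
    have hm : (F.range : Set (Matrix.GeneralLinearGroup (Fin d) K)) ⊆ Set.range m := by
      rintro _ ⟨x, rfl⟩
      have h5 : (Quotient.out (QuotientGroup.mk x : Humphries g ⧸ L))⁻¹ * x ∈ L :=
        QuotientGroup.eq.1 (QuotientGroup.out_eq' _)
      let q : Humphries g := (Quotient.out (QuotientGroup.mk x : Humphries g ⧸ L))⁻¹ * x
      have h6 : F q ∈ (HL g p).map f := ⟨q.1, ⟨q.2, h5⟩, rfl⟩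
      refine ⟨⟨QuotientGroup.mk x, ⟨F q, h6⟩⟩, ?_⟩
      show F _ * F _ = F x
      rw [← map_mul, mul_inv_cancel_left]
    exact (Set.finite_range m).subset hm
  rw [← h3]
  exact h4

/-- if the image has no nontrivial normal `p`-subgroup then the subgroup of level `p` is killed -/
theorem kill [hp : Fact p.Prime] [CharP K p] (hd : d < (g - 5).choose 2)
    (f : Mod g →* Matrix.GeneralLinearGroup (Fin d) K)
    (h : ∀ P : Subgroup ((Humphries g).map f), P.Normal → IsPGroup p P → P = ⊥)
    {y : Mod g} (hy : y ∈ HL g p) : f y = 1 := by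
  let P : Subgroup ((Humphries g).map f) := ((HL g p).map f).subgroupOf ((Humphries g).map f)
  have hn : P.Normal := by
    constructor
    rintro ⟨_, hz⟩ hz2 ⟨_, x, hx, rfl⟩
    obtain ⟨z, hz3, rfl⟩ := Subgroup.mem_subgroupOf.1 hz2
    rw [Subgroup.mem_subgroupOf]
    refine ⟨x * z * x⁻¹, ⟨?_, (level_normal g p).conj_mem z hz3.2 x⟩, ?_⟩
    · exact (Humphries g).mul_mem ((Humphries g).mul_mem hx hz3.1) ((Humphries g).inv_mem hx)
    · rw [map_mul, map_mul, map_inv]
      rfl
  have hpg : IsPGroup p P := by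
    rintro ⟨⟨_, hz⟩, hz2⟩
    obtain ⟨z, hz3, rfl⟩ := Subgroup.mem_subgroupOf.1 hz2
    refine ⟨2, ?_⟩
    apply Subtype.ext
    apply Subtype.ext
    exact lev_pow hd f hz3 three_le
  have h1 := h P hn hpg
  have h2 : (⟨f y, ⟨y, hy.1, rfl⟩⟩ : (Humphries g).map f) ∈ P := by
    rw [Subgroup.mem_subgroupOf]
    exact ⟨y, hy, rfl⟩
  rw [h1, Subgroup.mem_bot] at h2
  exact congrArg Subtype.val h2

end Pool.Agent.N66.CQ
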